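import Pool.Agent.H76.Phase

/-!
# Signs of `S_p` at the primitive twelfth roots of unity (full answer: the signs are as asserted)
-/

set_option autoImplicit false

open Finset NumberField

namespace Pool.Agent.Results.MP_8f4482_nt.TwelfthRootSign

noncomputable section

/-- `S_p(x) = ∏_{k=1}^{(p-1)/2} (x - e^{2πi k²/p})` -/
def Sp (p : ℕ) (x : ℂ) : ℂ :=
  ∏ k ∈ Finset.Icc 1 ((p - 1) / 2),
    (x - Complex.exp (2 * Real.pi * Complex.I * (k : ℂ) ^ 2 / p))

/-- `N_p`: the number of integers `1 ≤ k < p/12` with `(k/p) = 1` -/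
def Np (p : ℕ) [Fact p.Prime] : ℕ :=
  ((Finset.range p).filter (fun k => 1 ≤ k ∧ 12 * k < p ∧ legendreSym p k = 1)).card

/-- `T_s(p) = (-1)^{⌊h/2⌋ + N_p} e^{2πi s 5(p-1)/48} S_p(e^{2πi s/12})`, where the class number
`h` is an argument -/
def Ts (p : ℕ) [Fact p.Prime] (h : ℕ) (s : ℤ) : ℂ :=
  (-1) ^ (h / 2 + Np p) *
    Complex.exp (2 * Real.pi * Complex.I * s * (5 * ((p : ℂ) - 1) / 48)) *
    Sp p (Complex.exp (2 * Real.pi * Complex.I * s / 12))

/-- a complex number which is real and positive -/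
def RealPos (z : ℂ) : Prop := z.im = 0 ∧ 0 < z.re

/-- a complex number which is real and negative -/
def RealNeg (z : ℂ) : Prop := z.im = 0 ∧ z.re < 0

variable (p : ℕ) [hp : Fact p.Prime]

lemma pos_of {z : ℂ} {Q : ℝ} {e : ℕ} (hQ : 0 < Q) (he : Even e)
    (h : z = (((-1) ^ e * Q : ℝ) : ℂ)) : RealPos z := by
  rw [he.neg_one_pow, one_mul] at h
  rw [h]
  exact ⟨Complex.ofReal_im _, by rw [Complex.ofReal_re]; exact hQ⟩

lemma neg_of {z : ℂ} {Q : ℝ} {e : ℕ} (hQ : 0 < Q) (he : Odd e)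
    (h : z = (((-1) ^ e * Q : ℝ) : ℂ)) : RealNeg z := by
  rw [he.neg_one_pow] at h
  rw [h]
  exact ⟨Complex.ofReal_im _, by rw [Complex.ofReal_re]; linarith⟩

open Pool.Agent.H76 in
/-- the residues above `11p/12` are the reflections of the numbers `a < p/12` with `(-a/p) = 1` -/
lemma card_top (e : ℤ) (he : ∀ a b : ℕ, a + b = p → leg p a = e * leg p b)
    (he1 : e = 1 ∨ e = -1) (hp3 : 3 < p) :
    ((resid p).filter (fun r => ¬ 12 * r < 11 * p)).card =
      ((range p).filter (fun a => 1 ≤ a ∧ 12 * a < p ∧ leg p a = e)).card := by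
  refine card_bij (fun r _ => p - r) ?_ ?_ ?_
  · intro r hr
    rw [mem_filter] at hr
    obtain ⟨hr1, hr2⟩ := hr
    obtain ⟨h0, h1⟩ := resid_bounds p hr1
    unfold resid at hr1
    rw [mem_filter] at hr1
    have hne : 12 * r ≠ 11 * p := by
      intro h
      have h2 : 2 ∣ 11 * p := ⟨6 * r, by rw [← h]; ring⟩
      rcases (Nat.Prime.dvd_mul Nat.prime_two).mp h2 with h3 | h3
      · omega
      · have := (Nat.prime_dvd_prime_iff_eq Nat.prime_two hp.out).mp h3
        omega
    rw [mem_filter, mem_range]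
    refine ⟨by omega, by omega, by omega, ?_⟩
    rw [he (p - r) r (by omega), hr1.2, mul_one]
  · intro a ha b hb hab
    have h1 := resid_bounds p (mem_filter.mp ha).1
    have h2 := resid_bounds p (mem_filter.mp hb).1
    omega
  · intro a ha
    rw [mem_filter, mem_range] at ha
    obtain ⟨h1, h2, h3, h4⟩ := ha
    refine ⟨p - a, ?_, by omega⟩
    rw [mem_filter]
    refine ⟨?_, by omega⟩
    unfold resid
    rw [mem_filter, mem_range]
    refine ⟨by omega, ?_⟩
    rw [he (p - a) a (by omega), h4]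
    rcases he1 with h | h <;> rw [h] <;> norm_num

open Pool.Agent.H76 in
/-- for `p = 3 mod 4` the sum of the residues is `p w` with `4 w + 2 h + 1 = p` -/
lemma exists_w {K : Type*} [Field K] [NumberField K] (hK : Module.finrank ℚ K = 2)
    {α : K} (hα : α ^ 2 = -(p : K)) (h4 : p % 4 = 3) (h3 : p ≠ 3) :
    ∃ w : ℕ, ∑ r ∈ resid p, r = p * w ∧ 4 * w + 2 * classNumber K + 1 = p := by
  have hσ := sum_resid_three p hK hα h4 h3
  have hp0 : (0 : ℤ) < p := by exact_mod_cast hp.out.pos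
  have hcop : Nat.Coprime 4 p := by
    have : Nat.Coprime 2 p := by
      rw [Nat.coprime_primes Nat.prime_two hp.out]; omega
    exact Nat.Coprime.pow_left 2 this
  have hcop2 : IsCoprime (4 : ℤ) (p : ℤ) := by exact_mod_cast Nat.isCoprime_iff_coprime.mpr hcop
  have hdvd : (4 : ℤ) ∣ (p : ℤ) - 1 - 2 * classNumber K := by
    have h1 : (4 : ℤ) ∣ (p : ℤ) * ((p : ℤ) - 1 - 2 * classNumber K) :=
      ⟨∑ r ∈ resid p, (r : ℤ), by rw [hσ]; ring⟩
    exact hcop2.dvd_of_dvd_mul_left h1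
  obtain ⟨w, hw⟩ := hdvd
  have hsum : (∑ r ∈ resid p, (r : ℤ)) = p * w := by
    have : 4 * (∑ r ∈ resid p, (r : ℤ)) = 4 * (p * w) := by
      rw [hσ]; linear_combination (p : ℤ) * hw
    exact mul_left_cancel₀ (by norm_num) this
  have hnn : (0 : ℤ) ≤ ∑ r ∈ resid p, (r : ℤ) := Finset.sum_nonneg fun r _ => by positivity
  have hw0 : 0 ≤ w := by
    by_contra hneg
    push Not at hneg
    rw [hsum] at hnn
    nlinarith
  obtain ⟨v, rfl⟩ := Int.eq_ofNat_of_zero_le hw0
  refine ⟨v, ?_, by omega⟩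
  have : ((∑ r ∈ resid p, r : ℕ) : ℤ) = ((p * v : ℕ) : ℤ) := by
    push_cast
    exact hsum
  exact_mod_cast this

open Pool.Agent.H76 in
/-- numbers below `p/12` -/
lemma card_low (hp3 : 3 < p) :
    ((range p).filter (fun a => 1 ≤ a ∧ 12 * a < p ∧ leg p a = -1)).card + Np p =
      (p - 1) / 12 := by
  have h1 : ((range p).filter (fun a => 1 ≤ a ∧ 12 * a < p)).card = (p - 1) / 12 := by
    have h2 : (range p).filter (fun a => 1 ≤ a ∧ 12 * a < p) = Icc 1 ((p - 1) / 12) := by
      ext a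
      rw [mem_filter, mem_range, mem_Icc]
      omega
    rw [h2, Nat.card_Icc]
    omega
  rw [← h1, ← card_filter_add_card_filter_not (s := (range p).filter
    (fun a => 1 ≤ a ∧ 12 * a < p)) (fun a => leg p a = -1)]
  congr 1
  · rw [filter_filter]
    congr 1
    apply filter_congr
    intro a _
    tauto
  · unfold Np
    rw [filter_filter]
    congr 1
    apply filter_congr
    intro a ha
    have ha := mem_range.mp ha
    constructor
    · rintro ⟨h3, h4, h5⟩
      refine ⟨⟨h3, h4⟩, ?_⟩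
      have h6 : leg p a = 1 := h5
      rw [h6]; norm_num
    · rintro ⟨⟨h3, h4⟩, h5⟩
      refine ⟨h3, h4, ?_⟩
      rcases leg_pm p h3 ha with h | h
      · exact h
      · exact absurd h h5

/-- **Main theorem.** -/
theorem result (p : ℕ) [Fact p.Prime] (K : Type*) [Field K] [NumberField K]
    (hK : Module.finrank ℚ K = 2) (hα : ∃ α : K, α ^ 2 = -(p : K)) :
    (p % 12 = 5 → RealPos (Ts p (classNumber K) 1) ∧ RealPos (Ts p (classNumber K) (-1))) ∧
    (p % 24 = 11 → RealPos (Ts p (classNumber K) 1) ∧ RealNeg (Ts p (classNumber K) (-1))) ∧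
    (p % 24 = 23 → RealNeg (Ts p (classNumber K) 1) ∧ RealNeg (Ts p (classNumber K) (-1))) := by
  have hp : p.Prime := Fact.out
  obtain ⟨α, hα⟩ := hα
  have hTs : ∀ h s, Ts p h s = Pool.Agent.H76.Ts p h s := fun _ _ => rfl
  set h := classNumber K with hh
  refine ⟨?_, ?_, ?_⟩
  · intro h12
    have hp3 : 3 < p := by omega
    obtain ⟨m, hm⟩ : ∃ m, p = 4 * m + 1 := ⟨p / 4, by omega⟩
    have h4 : p % 4 = 1 := by omega
    obtain ⟨c, hc⟩ := Pool.Agent.H76.classNumber_mod_four p hK hα m hm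
    have hσ := Pool.Agent.H76.sum_resid_one p h4
    have hw : ∑ r ∈ Pool.Agent.H76.resid p, r = p * m := by
      have h1 : 4 * ((∑ r ∈ Pool.Agent.H76.resid p, r : ℕ) : ℤ) = 4 * ((p * m : ℕ) : ℤ) := by
        push_cast
        rw [hσ]
        have : (p : ℤ) - 1 = 4 * m := by omega
        rw [this]; ring
      have h2 := mul_left_cancel₀ (by norm_num : (4 : ℤ) ≠ 0) h1
      exact_mod_cast h2
    obtain ⟨Q, hQ, hT⟩ := Pool.Agent.H76.Ts_plus p hp3 h m hw
    obtain ⟨Q', hQ', hT'⟩ := Pool.Agent.H76.Ts_minus p hp3 h m hw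
    have hev : Even (h / 2 + m) := by
      rw [Nat.even_iff]; omega
    refine ⟨pos_of hQ hev hT, ?_⟩
    refine pos_of hQ' ?_ hT'
    have h1 := card_filter_add_card_filter_not (s := Pool.Agent.H76.resid p)
      (fun r => 12 * r < 11 * p)
    have h2 := card_top p 1 (fun a b hab => by
      rw [one_mul]; exact Pool.Agent.H76.leg_sub p h4 hab) (Or.inl rfl) hp3
    have h3 : ((range p).filter (fun a => 1 ≤ a ∧ 12 * a < p ∧ Pool.Agent.H76.leg p a = 1)).card =
        Pool.Agent.H76.Np p := rfl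
    have h5 := Pool.Agent.H76.card_resid p (by omega)
    rw [Nat.even_iff] at hev ⊢
    omega
  · intro h24
    have hp3 : 3 < p := by omega
    obtain ⟨k, hk⟩ : ∃ k, p = 24 * k + 11 := ⟨p / 24, by omega⟩
    have h4 : p % 4 = 3 := by omega
    obtain ⟨w, hw, hwh⟩ := exists_w p hK hα h4 (by omega)
    rw [← hh] at hwh
    obtain ⟨Q, hQ, hT⟩ := Pool.Agent.H76.Ts_plus p hp3 h w hw
    obtain ⟨Q', hQ', hT'⟩ := Pool.Agent.H76.Ts_minus p hp3 h w hw
    have hev : Even (h / 2 + w) := by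
      rw [Nat.even_iff]; omega
    refine ⟨pos_of hQ hev hT, ?_⟩
    refine neg_of hQ' ?_ hT'
    have h1 := card_filter_add_card_filter_not (s := Pool.Agent.H76.resid p)
      (fun r => 12 * r < 11 * p)
    have h2 := card_top p (-1) (fun a b hab => by
      rw [Pool.Agent.H76.leg_sub_three p h4 hab]; ring) (Or.inr rfl) hp3
    have h3 := card_low p hp3
    have h3' : Np p = Pool.Agent.H76.Np p := rfl
    have h5 := Pool.Agent.H76.card_resid p (by omega)
    rw [Nat.even_iff] at hev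
    rw [Nat.odd_iff]
    omega
  · intro h24
    have hp3 : 3 < p := by omega
    obtain ⟨k, hk⟩ : ∃ k, p = 24 * k + 23 := ⟨p / 24, by omega⟩
    have h4 : p % 4 = 3 := by omega
    obtain ⟨w, hw, hwh⟩ := exists_w p hK hα h4 (by omega)
    rw [← hh] at hwh
    obtain ⟨Q, hQ, hT⟩ := Pool.Agent.H76.Ts_plus p hp3 h w hw
    obtain ⟨Q', hQ', hT'⟩ := Pool.Agent.H76.Ts_minus p hp3 h w hw
    have hodd : Odd (h / 2 + w) := by
      rw [Nat.odd_iff]; omega
    refine ⟨neg_of hQ hodd hT, ?_⟩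
    refine neg_of hQ' ?_ hT'
    have h1 := card_filter_add_card_filter_not (s := Pool.Agent.H76.resid p)
      (fun r => 12 * r < 11 * p)
    have h2 := card_top p (-1) (fun a b hab => by
      rw [Pool.Agent.H76.leg_sub_three p h4 hab]; ring) (Or.inr rfl) hp3
    have h3 := card_low p hp3
    have h3' : Np p = Pool.Agent.H76.Np p := rfl
    have h5 := Pool.Agent.H76.card_resid p (by omega)
    rw [Nat.odd_iff] at hodd ⊢
    omega

end

end Pool.Agent.Results.MP_8f4482_nt.TwelfthRootSign
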